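import Pool.Agent.Helper16.Pin.SepF

/-!
# Module D of `MP_35f203_lc`: the rank function
-/

namespace Pool.Agent.Helper36.Pin

open Finset Module

variable {V : Type} [Fintype V] [DecidableEq V]

namespace ModD

/-- all maximal sparse subsets of `F` have the same size -/
theorem card_eq_of_maximal {F I : Finset (Sym2 V)} (hIF : I ⊆ F) (hI : Sparse I)
    (hmax : ∀ e ∈ F, e ∉ I → ¬ Sparse (insert e I)) : I.card = rk F := by
  classical
  apply le_antisymm (ModE.card_le_rk hIF hI)
  have hcov : ∀ e ∈ F, ¬ e.IsDiag → ∃ X ∈ ModE.maxTight I, e ∈ X.sym2 := by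
    intro e heF hed
    by_cases heI : e ∈ I
    · induction e using Sym2.ind with
      | _ u v =>
        obtain ⟨Y, hY, hsub⟩ := ModE.exists_maxTight (ModE.tight_pair hI heI)
        refine ⟨Y, hY, ?_⟩
        rw [mk_mem_sym2]
        exact ⟨hsub (by simp), hsub (by simp)⟩
    · obtain ⟨X, hX, heX⟩ := ModE.exists_tight_of_not_sparse hI hed (hmax e heF heI)
      obtain ⟨Y, hY, hsub⟩ := ModE.exists_maxTight hX
      exact ⟨Y, hY, Finset.sym2_mono hsub heX⟩
  calc rk F ≤ ∑ X ∈ ModE.maxTight I, (2 * X.card - 3) :=
        ModF.rk_le_cover_index F (ModE.maxTight I) (fun X => X) hcov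
    _ = ∑ X ∈ ModE.maxTight I, (I ∩ X.sym2).card := by
        refine sum_congr rfl fun X hX => ?_
        have h2 := (ModE.mem_maxTight.1 hX).1.2
        omega
    _ = ((ModE.maxTight I).biUnion (fun X => I ∩ X.sym2)).card := by
        rw [card_biUnion]
        intro X hX Y hY hne
        exact ModE.maxTight_disjoint hI hX hY hne
    _ ≤ I.card := by
        apply card_le_card
        intro e he
        rw [mem_biUnion] at he
        obtain ⟨X, hX, he⟩ := he
        exact (mem_inter.1 he).1

/-- a sparse subset can be extended to a basis -/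
theorem exists_extend {F I : Finset (Sym2 V)} (hIF : I ⊆ F) (hI : Sparse I) :
    ∃ J, I ⊆ J ∧ J ⊆ F ∧ Sparse J ∧ J.card = rk F ∧ ∀ e ∈ F, e ∉ J → ¬ Sparse (insert e J) := by
  classical
  have hne : (F.powerset.filter (fun J => I ⊆ J ∧ Sparse J)).Nonempty :=
    ⟨I, by simp [hIF, hI]⟩
  obtain ⟨J, hJ, hmax⟩ := exists_max_image _ Finset.card hne
  simp only [mem_filter, mem_powerset] at hJ hmax
  have hm : ∀ e ∈ F, e ∉ J → ¬ Sparse (insert e J) := by
    intro e he heJ hs
    have := hmax (insert e J) ⟨insert_subset he hJ.1, hJ.2.1.trans (subset_insert _ _), hs⟩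
    rw [card_insert_of_notMem heJ] at this
    omega
  exact ⟨J, hJ.2.1, hJ.1, hJ.2.2, card_eq_of_maximal hJ.1 hJ.2.2 hm, hm⟩

theorem sparse_empty : Sparse (∅ : Finset (Sym2 V)) := by
  refine ⟨by simp, ?_⟩
  intro X hX
  simp only [empty_inter, card_empty]
  omega

end ModD

theorem rk_mono {F F' : Finset (Sym2 V)} (h : F ⊆ F') : rk F ≤ rk F' := ModF.rk_mono' h

theorem rk_le_card (F : Finset (Sym2 V)) : rk F ≤ F.card := by
  obtain ⟨I, hIF, hI, hcard⟩ := ModE.exists_sparse F
  rw [← hcard]
  exact card_le_card hIF

/-- submodularity -/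
theorem rk_submod (F F' : Finset (Sym2 V)) : rk (F ∪ F') + rk (F ∩ F') ≤ rk F + rk F' := by
  classical
  obtain ⟨I₀, -, hI₀F, hI₀, hc₀, -⟩ := ModD.exists_extend (empty_subset (F ∩ F')) ModD.sparse_empty
  obtain ⟨I₁, h01, hI₁F, hI₁, hc₁, hm₁⟩ :=
    ModD.exists_extend (hI₀F.trans inter_subset_left) hI₀
  obtain ⟨I₂, h12, hI₂F, hI₂, hc₂, -⟩ :=
    ModD.exists_extend (hI₁F.trans (subset_union_left (s₂ := F'))) hI₁
  have h3 : I₀ ∪ (I₂ \ I₁) ⊆ F' := by
    apply union_subset (hI₀F.trans inter_subset_right)
    intro e he
    rw [mem_sdiff] at he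
    rcases mem_union.1 (hI₂F he.1) with h | h
    · exfalso
      exact hm₁ e h he.2 (ModE.Sparse.subset hI₂ (insert_subset he.1 h12))
    · exact h
  have h4 : Sparse (I₀ ∪ (I₂ \ I₁)) :=
    ModE.Sparse.subset hI₂ (union_subset (h01.trans h12) sdiff_subset)
  have h5 := ModE.card_le_rk h3 h4
  have h6 : Disjoint I₀ (I₂ \ I₁) := by
    rw [disjoint_left]
    intro e he he2
    exact (mem_sdiff.1 he2).2 (h01 he)
  rw [card_union_of_disjoint h6] at h5
  have h7 : (I₂ \ I₁).card + I₁.card = I₂.card := card_sdiff_add_card_eq_card h12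
  omega

theorem rk_empty : rk (∅ : Finset (Sym2 V)) = 0 := by
  have := rk_le_card (∅ : Finset (Sym2 V))
  simpa using this

theorem rk_union_le (F F' : Finset (Sym2 V)) : rk (F ∪ F') ≤ rk F + rk F' := by
  have := rk_submod F F'
  omega

theorem rk_singleton {u v : V} (h : u ≠ v) : rk {s(u, v)} = 1 := by
  apply le_antisymm
  · have := rk_le_card ({s(u, v)} : Finset (Sym2 V))
    simpa using this
  · have hs : Sparse ({s(u, v)} : Finset (Sym2 V)) := by
      refine ⟨?_, ?_⟩
      · intro e he
        rw [mem_singleton] at he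
        rw [he, Sym2.mk_isDiag_iff]
        exact h
      · intro X hX
        have : ({s(u, v)} ∩ X.sym2).card ≤ 1 := by
          have := card_le_card (inter_subset_left (s₁ := ({s(u, v)} : Finset (Sym2 V)))
            (s₂ := X.sym2))
          simpa using this
        omega
    have := ModE.card_le_rk (Subset.refl _) hs
    simpa using this

theorem rk_insert_le (F : Finset (Sym2 V)) (e : Sym2 V) : rk (insert e F) ≤ rk F + 1 := by
  have h1 := rk_union_le F {e}
  have h2 := rk_le_card ({e} : Finset (Sym2 V))
  rw [card_singleton] at h2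
  have h3 : insert e F = F ∪ {e} := by
    ext x
    simp only [mem_insert, mem_union, mem_singleton]
    tauto
  rw [h3]
  omega

theorem rk_inside_le (F : Finset (Sym2 V)) (X : Finset V) (hX : 2 ≤ X.card) (hF : F ⊆ X.sym2) :
    rk F + 3 ≤ 2 * X.card := by
  obtain ⟨I, hIF, hI, hcard⟩ := ModE.exists_sparse F
  have h1 := hI.2 X hX
  rw [inter_eq_left.2 (hIF.trans hF)] at h1
  omega

theorem rk_inside_small (F : Finset (Sym2 V)) (X : Finset V) (hX : X.card ≤ 1) (hF : F ⊆ X.sym2) :
    rk F = 0 := by
  obtain ⟨I, hIF, hI, hcard⟩ := ModE.exists_sparse F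
  rw [← hcard, card_eq_zero, eq_empty_iff_forall_notMem]
  intro e he
  have := ModF.two_le_of_mem_sym2 (hI.1 e he) (hF (hIF he))
  omega

/-- adding a new vertex `v` with two edges raises the rank by two -/
theorem rk_zero_ext (F : Finset (Sym2 V)) (v x y : V) (hF : ∀ e ∈ F, v ∉ e) (hvx : v ≠ x)
    (hvy : v ≠ y) (hxy : x ≠ y) : rk (insert s(v, x) (insert s(v, y) F)) = rk F + 2 := by
  classical
  apply le_antisymm
  · have h1 := rk_insert_le (insert s(v, y) F) s(v, x)
    have h2 := rk_insert_le F s(v, y)
    omega
  · obtain ⟨I, hIF, hI, hcard⟩ := ModE.exists_sparse F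
    have hvI : ∀ e ∈ I, v ∉ e := fun e he => hF e (hIF he)
    have hyI : s(v, y) ∉ I := fun h => hvI _ h (by simp)
    have hxI : s(v, x) ∉ insert s(v, y) I := by
      rw [mem_insert, not_or]
      refine ⟨?_, fun h => hvI _ h (by simp)⟩
      rw [Sym2.eq_iff]
      rintro (⟨-, h⟩ | ⟨h, -⟩)
      · exact hxy h
      · exact hvy h
    have hs : Sparse (insert s(v, x) (insert s(v, y) I)) := by
      refine ⟨?_, ?_⟩
      · intro e he
        rw [mem_insert, mem_insert] at he
        rcases he with rfl | rfl | he
        · rw [Sym2.mk_isDiag_iff]; exact hvx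
        · rw [Sym2.mk_isDiag_iff]; exact hvy
        · exact hI.1 e he
      · intro X hX
        by_cases hvX : v ∈ X
        · have hsub : insert s(v, x) (insert s(v, y) I) ∩ X.sym2 ⊆
              (I ∩ (X.erase v).sym2) ∪ ((X.erase v) ∩ {x, y}).image (fun w => s(v, w)) := by
            intro e he
            rw [mem_inter, mem_insert, mem_insert] at he
            obtain ⟨rfl | rfl | he1, he2⟩ := he
            · rw [mk_mem_sym2] at he2
              apply mem_union_right
              rw [mem_image]
              exact ⟨x, by simp [he2.2, hvx.symm], rfl⟩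
            · rw [mk_mem_sym2] at he2
              apply mem_union_right
              rw [mem_image]
              exact ⟨y, by simp [he2.2, hvy.symm], rfl⟩
            · apply mem_union_left
              rw [mem_inter]
              refine ⟨he1, ?_⟩
              have hv := hvI e he1
              induction e using Sym2.ind with
              | _ a b =>
                rw [mk_mem_sym2] at he2 ⊢
                rw [Sym2.mem_iff, not_or] at hv
                exact ⟨mem_erase.2 ⟨fun h => hv.1 h.symm, he2.1⟩,
                  mem_erase.2 ⟨fun h => hv.2 h.symm, he2.2⟩⟩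
          have h1 := card_le_card hsub
          have h2 := card_union_le (I ∩ (X.erase v).sym2)
            (((X.erase v) ∩ {x, y}).image (fun w => s(v, w)))
          have h3 : (((X.erase v) ∩ {x, y}).image (fun w => s(v, w))).card ≤
              ((X.erase v) ∩ {x, y}).card := card_image_le
          have h4 : ((X.erase v) ∩ {x, y}).card ≤ 2 := by
            have := card_le_card (inter_subset_right (s₁ := X.erase v) (s₂ := {x, y}))
            rw [card_pair hxy] at this
            exact this
          have h5 : (X.erase v).card = X.card - 1 := card_erase_of_mem hvX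
          have h5' : ((X.erase v) ∩ {x, y}).card ≤ (X.erase v).card :=
            card_le_card inter_subset_left
          by_cases h6 : 2 ≤ (X.erase v).card
          · have h7 := hI.2 (X.erase v) h6
            omega
          · have h7 : I ∩ (X.erase v).sym2 = ∅ := by
              rw [eq_empty_iff_forall_notMem]
              intro e he
              rw [mem_inter] at he
              have := ModF.two_le_of_mem_sym2 (hI.1 e he.1) he.2
              omega
            rw [h7, card_empty] at h2
            rw [h7] at h1
            omega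
        · have : insert s(v, x) (insert s(v, y) I) ∩ X.sym2 = I ∩ X.sym2 := by
            ext e
            rw [mem_inter, mem_insert, mem_insert, mem_inter]
            constructor
            · rintro ⟨rfl | rfl | h1, h2⟩
              · rw [mk_mem_sym2] at h2; exact absurd h2.1 hvX
              · rw [mk_mem_sym2] at h2; exact absurd h2.1 hvX
              · exact ⟨h1, h2⟩
            · rintro ⟨h1, h2⟩
              exact ⟨Or.inr (Or.inr h1), h2⟩
          rw [this]
          exact hI.2 X hX
    have h1 : insert s(v, x) (insert s(v, y) I) ⊆ insert s(v, x) (insert s(v, y) F) :=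
      insert_subset_insert _ (insert_subset_insert _ hIF)
    have h2 := ModE.card_le_rk h1 hs
    rw [card_insert_of_notMem hxI, card_insert_of_notMem hyI] at h2
    omega

end Pool.Agent.Helper36.Pin
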