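import Pool.Agent.Helper36.Pin.Defs2

/-!
# Module E of `MP_35f203_lc`: decomposition into rigid components
-/

namespace Pool.Agent.Helper36.Pin

open Finset Module

variable {V : Type} [Fintype V] [DecidableEq V]

namespace ModE

theorem exists_sparse (F : Finset (Sym2 V)) : ∃ I ⊆ F, Sparse I ∧ I.card = rk F := by
  classical
  have hne : (F.powerset.filter (fun I => Sparse I)).Nonempty := by
    refine ⟨∅, ?_⟩
    simp only [mem_filter, mem_powerset, empty_subset, true_and]
    refine ⟨by simp, ?_⟩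
    intro X hX
    simp only [empty_inter, card_empty]
    omega
  obtain ⟨I, hI, hI2⟩ := Finset.exists_mem_eq_sup _ hne Finset.card
  simp only [mem_filter, mem_powerset] at hI
  refine ⟨I, hI.1, hI.2, ?_⟩
  rw [rk]
  convert hI2.symm using 1

theorem card_le_rk {F I : Finset (Sym2 V)} (hI : I ⊆ F) (hs : Sparse I) : I.card ≤ rk F := by
  classical
  have h : I ∈ F.powerset.filter (fun I => Sparse I) := by
    simp only [mem_filter, mem_powerset]
    exact ⟨hI, hs⟩
  have := Finset.le_sup (f := Finset.card) h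
  rw [rk]
  convert this using 1

theorem Sparse.subset {I J : Finset (Sym2 V)} (hI : Sparse I) (hJ : J ⊆ I) : Sparse J := by
  refine ⟨fun e he => hI.1 e (hJ he), fun X hX => ?_⟩
  have h1 := hI.2 X hX
  have h2 : (J ∩ X.sym2).card ≤ (I ∩ X.sym2).card :=
    card_le_card (inter_subset_inter_right hJ)
  omega

/-- indexed cover bound -/
theorem rk_le_cover_index {ι : Type*} (F : Finset (Sym2 V)) (s : Finset ι) (f : ι → Finset V)
    (h2 : ∀ i ∈ s, 2 ≤ (f i).card)
    (hc : ∀ e ∈ F, ¬ e.IsDiag → ∃ i ∈ s, e ∈ (f i).sym2) :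
    rk F ≤ ∑ i ∈ s, (2 * (f i).card - 3) := by
  classical
  obtain ⟨I, hIF, hI, hcard⟩ := exists_sparse F
  rw [← hcard]
  have h1 : I ⊆ s.biUnion (fun i => I ∩ (f i).sym2) := by
    intro e he
    obtain ⟨i, hi, hei⟩ := hc e (hIF he) (hI.1 e he)
    rw [mem_biUnion]
    exact ⟨i, hi, mem_inter.2 ⟨he, hei⟩⟩
  calc I.card ≤ (s.biUnion (fun i => I ∩ (f i).sym2)).card := card_le_card h1
    _ ≤ ∑ i ∈ s, (I ∩ (f i).sym2).card := card_biUnion_le
    _ ≤ ∑ i ∈ s, (2 * (f i).card - 3) := by
        refine sum_le_sum fun i hi => ?_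
        have := hI.2 (f i) (h2 i hi)
        omega

def Tight (I : Finset (Sym2 V)) (X : Finset V) : Prop :=
  2 ≤ X.card ∧ (I ∩ X.sym2).card + 3 = 2 * X.card

theorem sym2_inter' (X Y : Finset V) : (X ∩ Y).sym2 = X.sym2 ∩ Y.sym2 := by
  ext e
  induction e using Sym2.ind with
  | _ u v => simp only [mem_inter, mk_mem_sym2]; tauto

theorem Tight.union {I : Finset (Sym2 V)} (hI : Sparse I) {X Y : Finset V} (hX : Tight I X)
    (hY : Tight I Y) (h : 2 ≤ (X ∩ Y).card) : Tight I (X ∪ Y) := by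
  have h1 := hI.2 (X ∩ Y) h
  have hXY : 2 ≤ (X ∪ Y).card := le_trans hX.1 (card_le_card subset_union_left)
  have h2 := hI.2 (X ∪ Y) hXY
  have h3 := card_union_add_card_inter X Y
  have h4 := card_union_add_card_inter (I ∩ X.sym2) (I ∩ Y.sym2)
  have h5 : (I ∩ X.sym2) ∩ (I ∩ Y.sym2) = I ∩ (X ∩ Y).sym2 := by
    rw [sym2_inter']; ext e; simp only [mem_inter]; tauto
  have h6 : ((I ∩ X.sym2) ∪ (I ∩ Y.sym2)).card ≤ (I ∩ (X ∪ Y).sym2).card := by
    apply card_le_card
    apply union_subset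
    · exact inter_subset_inter_left (Finset.sym2_mono subset_union_left)
    · exact inter_subset_inter_left (Finset.sym2_mono subset_union_right)
  rw [h5] at h4
  have h7 := hX.2
  have h8 := hY.2
  exact ⟨hXY, by omega⟩

/-- a pair which cannot be added is inside a tight set -/
theorem exists_tight_of_not_sparse {I : Finset (Sym2 V)} (hI : Sparse I) {e : Sym2 V}
    (he : ¬ e.IsDiag) (hn : ¬ Sparse (insert e I)) : ∃ X, Tight I X ∧ e ∈ X.sym2 := by
  have h : ¬ ∀ X : Finset V, 2 ≤ X.card → (insert e I ∩ X.sym2).card + 3 ≤ 2 * X.card := by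
    intro h
    apply hn
    refine ⟨?_, h⟩
    intro e' he'
    rw [mem_insert] at he'
    rcases he' with rfl | he'
    · exact he
    · exact hI.1 e' he'
  push Not at h
  obtain ⟨X, hX, hX2⟩ := h
  have hle := hI.2 X hX
  by_cases heX : e ∈ X.sym2
  · refine ⟨X, ⟨hX, ?_⟩, heX⟩
    have : (insert e I ∩ X.sym2).card ≤ (I ∩ X.sym2).card + 1 := by
      have : insert e I ∩ X.sym2 ⊆ insert e (I ∩ X.sym2) := by
        intro e' he'
        simp only [mem_inter, mem_insert] at he' ⊢
        tauto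
      exact le_trans (card_le_card this) (card_insert_le _ _)
    omega
  · exfalso
    have : insert e I ∩ X.sym2 = I ∩ X.sym2 := by
      ext e'
      simp only [mem_inter, mem_insert]
      constructor
      · rintro ⟨rfl | h1, h2⟩
        · exact absurd h2 heX
        · exact ⟨h1, h2⟩
      · rintro ⟨h1, h2⟩
        exact ⟨Or.inr h1, h2⟩
    rw [this] at hX2
    omega

theorem tight_pair {I : Finset (Sym2 V)} (hI : Sparse I) {u v : V} (he : s(u, v) ∈ I) :
    Tight I {u, v} := by
  have huv : u ≠ v := by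
    intro h
    exact hI.1 _ he (by rw [Sym2.mk_isDiag_iff]; exact h)
  have hc : ({u, v} : Finset V).card = 2 := card_pair huv
  refine ⟨by omega, ?_⟩
  have h1 := hI.2 {u, v} (by omega)
  have h2 : 1 ≤ (I ∩ ({u, v} : Finset V).sym2).card := by
    apply card_pos.2
    refine ⟨s(u, v), mem_inter.2 ⟨he, ?_⟩⟩
    rw [mk_mem_sym2]
    simp
  omega

open Classical in
/-- the maximal tight sets -/
noncomputable def maxTight (I : Finset (Sym2 V)) : Finset (Finset V) :=
  univ.filter (fun X => Tight I X ∧ ∀ Y, Tight I Y → X ⊆ Y → X = Y)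

theorem mem_maxTight {I : Finset (Sym2 V)} {X : Finset V} :
    X ∈ maxTight I ↔ Tight I X ∧ ∀ Y, Tight I Y → X ⊆ Y → X = Y := by
  simp [maxTight]

theorem exists_maxTight {I : Finset (Sym2 V)} {X : Finset V} (hX : Tight I X) :
    ∃ Y ∈ maxTight I, X ⊆ Y := by
  classical
  have hne : (univ.filter (fun Y => Tight I Y ∧ X ⊆ Y)).Nonempty :=
    ⟨X, by simp [hX]⟩
  obtain ⟨Y, hY, hmax⟩ := exists_max_image _ Finset.card hne
  simp only [mem_filter, mem_univ, true_and] at hY hmax
  refine ⟨Y, mem_maxTight.2 ⟨hY.1, ?_⟩, hY.2⟩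
  intro Z hZ hYZ
  exact eq_of_subset_of_card_le hYZ (hmax Z ⟨hZ, hY.2.trans hYZ⟩)

theorem maxTight_inter {I : Finset (Sym2 V)} (hI : Sparse I) {X Y : Finset V}
    (hX : X ∈ maxTight I) (hY : Y ∈ maxTight I) (h : X ≠ Y) : (X ∩ Y).card ≤ 1 := by
  by_contra hlt
  rw [mem_maxTight] at hX hY
  have h1 := Tight.union hI hX.1 hY.1 (by omega)
  exact h ((hX.2 _ h1 subset_union_left).trans (hY.2 _ h1 subset_union_right).symm)

/-- edges inside two different maximal tight sets do not exist -/
theorem maxTight_disjoint {I : Finset (Sym2 V)} (hI : Sparse I) {X Y : Finset V}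
    (hX : X ∈ maxTight I) (hY : Y ∈ maxTight I) (h : X ≠ Y) :
    Disjoint (I ∩ X.sym2) (I ∩ Y.sym2) := by
  rw [disjoint_left]
  intro e
  induction e using Sym2.ind with
  | _ u v =>
    intro h1 h2
    rw [mem_inter, mk_mem_sym2] at h1 h2
    have huv : u ≠ v := by
      intro h'
      exact hI.1 _ h1.1 (by rw [Sym2.mk_isDiag_iff]; exact h')
    have h3 := maxTight_inter hI hX hY h
    have h4 : ({u, v} : Finset V) ⊆ X ∩ Y := by
      intro w hw
      rw [mem_insert, mem_singleton] at hw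
      rcases hw with rfl | rfl
      · exact mem_inter.2 ⟨h1.2.1, h2.2.1⟩
      · exact mem_inter.2 ⟨h1.2.2, h2.2.2⟩
    have h5 := card_le_card h4
    rw [card_pair huv] at h5
    omega

theorem comps_maxTight {F I : Finset (Sym2 V)} (hIF : I ⊆ F) (hI : Sparse I)
    (hcard : I.card = rk F) : Comps F (maxTight I) := by
  classical
  have hcov : ∀ e ∈ F, ¬ e.IsDiag → ∃ X ∈ maxTight I, e ∈ X.sym2 := by
    intro e heF hed
    by_cases heI : e ∈ I
    · induction e using Sym2.ind with
      | _ u v =>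
        obtain ⟨Y, hY, hsub⟩ := exists_maxTight (tight_pair hI heI)
        refine ⟨Y, hY, ?_⟩
        rw [mk_mem_sym2]
        exact ⟨hsub (by simp), hsub (by simp)⟩
    · have hn : ¬ Sparse (insert e I) := by
        intro hs
        have h1 := card_le_rk (insert_subset heF hIF) hs
        rw [card_insert_of_notMem heI] at h1
        omega
      obtain ⟨X, hX, heX⟩ := exists_tight_of_not_sparse hI hed hn
      obtain ⟨Y, hY, hsub⟩ := exists_maxTight hX
      exact ⟨Y, hY, Finset.sym2_mono hsub heX⟩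
  have hsumI : ∀ 𝒴 ⊆ maxTight I, ∑ X ∈ 𝒴, (2 * X.card - 3) =
      (𝒴.biUnion (fun X => I ∩ X.sym2)).card := by
    intro 𝒴 h𝒴
    rw [card_biUnion]
    · refine sum_congr rfl fun X hX => ?_
      have h1 := (mem_maxTight.1 (h𝒴 hX)).1
      have h2 := h1.2
      omega
    · intro X hX Y hY hne
      exact maxTight_disjoint hI (h𝒴 hX) (h𝒴 hY) hne
  refine ⟨?_, hcov, ?_, ?_, ?_, ?_, ?_⟩
  · intro X hX
    exact (mem_maxTight.1 hX).1.1
  · intro X hX Y hY hne
    exact maxTight_inter hI hX hY hne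
  · intro X hX
    have hX1 := (mem_maxTight.1 hX).1
    obtain ⟨J, hJ, hJs, hJc⟩ := exists_sparse (F ∩ X.sym2)
    have h1 := hJs.2 X hX1.1
    have h2 : J ∩ X.sym2 = J := inter_eq_left.2 (hJ.trans inter_subset_right)
    rw [h2] at h1
    have h3 : (I ∩ X.sym2).card ≤ rk (F ∩ X.sym2) :=
      card_le_rk (inter_subset_inter_right hIF) (Sparse.subset hI inter_subset_left)
    have h4 := hX1.2
    omega
  · rw [hsumI _ (Subset.refl _), ← hcard]
    congr 1
    apply Subset.antisymm
    · intro e he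
      rw [mem_biUnion] at he
      obtain ⟨X, hX, he⟩ := he
      exact (mem_inter.1 he).1
    · intro e he
      obtain ⟨X, hX, heX⟩ := hcov e (hIF he) (hI.1 e he)
      rw [mem_biUnion]
      exact ⟨X, hX, mem_inter.2 ⟨he, heX⟩⟩
  · intro Y hY hrk
    set 𝒴 := (maxTight I).filter (fun X => 2 ≤ (X ∩ Y).card) with h𝒴
    have h𝒴sub : 𝒴 ⊆ maxTight I := filter_subset _ _
    have h1 : rk (F ∩ Y.sym2) ≤ ∑ X ∈ 𝒴, (2 * (X ∩ Y).card - 3) := by
      apply rk_le_cover_index
      · intro X hX
        rw [h𝒴, mem_filter] at hX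
        exact hX.2
      · intro e he hed
        rw [mem_inter] at he
        obtain ⟨X, hX, heX⟩ := hcov e he.1 hed
        have heXY : e ∈ (X ∩ Y).sym2 := by
          rw [sym2_inter', mem_inter]
          exact ⟨heX, he.2⟩
        refine ⟨X, ?_, heXY⟩
        rw [h𝒴, mem_filter]
        refine ⟨hX, ?_⟩
        induction e using Sym2.ind with
        | _ u v =>
          rw [mk_mem_sym2] at heXY
          have huv : u ≠ v := by
            intro h'
            exact hed (by rw [Sym2.mk_isDiag_iff]; exact h')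
          have h4 : ({u, v} : Finset V) ⊆ X ∩ Y := by
            intro w hw
            rw [mem_insert, mem_singleton] at hw
            rcases hw with rfl | rfl
            · exact heXY.1
            · exact heXY.2
          have h5 := card_le_card h4
          rw [card_pair huv] at h5
          exact h5
    set X' := Y ∪ 𝒴.biUnion id with hX'
    have hYX' : Y ⊆ X' := subset_union_left
    have h2 : (𝒴.biUnion (fun X => I ∩ X.sym2)).card ≤ (I ∩ X'.sym2).card := by
      apply card_le_card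
      intro e he
      rw [mem_biUnion] at he
      obtain ⟨X, hX, he⟩ := he
      rw [mem_inter] at he ⊢
      refine ⟨he.1, Finset.sym2_mono ?_ he.2⟩
      exact (Finset.subset_biUnion_of_mem (u := id) hX).trans subset_union_right
    rw [← hsumI 𝒴 h𝒴sub] at h2
    have h3 : (X' \ Y).card ≤ ∑ X ∈ 𝒴, (X \ Y).card := by
      have : X' \ Y ⊆ 𝒴.biUnion (fun X => X \ Y) := by
        intro w hw
        rw [mem_sdiff, hX', mem_union, mem_biUnion] at hw
        rw [mem_biUnion]
        obtain ⟨h | ⟨X, hX, hwX⟩, hwY⟩ := hw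
        · exact absurd h hwY
        · exact ⟨X, hX, mem_sdiff.2 ⟨hwX, hwY⟩⟩
      exact le_trans (card_le_card this) card_biUnion_le
    have h4 : ∑ X ∈ 𝒴, (2 * (X ∩ Y).card - 3) + ∑ X ∈ 𝒴, 2 * (X \ Y).card =
        ∑ X ∈ 𝒴, (2 * X.card - 3) := by
      rw [← sum_add_distrib]
      refine sum_congr rfl fun X hX => ?_
      rw [h𝒴, mem_filter] at hX
      have h5 := card_inter_add_card_sdiff X Y
      omega
    rw [← mul_sum] at h4
    have h5 : (X' \ Y).card + Y.card = X'.card := card_sdiff_add_card_eq_card hYX'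
    have hX'2 : 2 ≤ X'.card := le_trans hY (card_le_card hYX')
    have h6 := hI.2 X' hX'2
    have h7 : Tight I X' := ⟨hX'2, by omega⟩
    obtain ⟨Z, hZ, hsub⟩ := exists_maxTight h7
    exact ⟨Z, hZ, hYX'.trans hsub⟩
  · intro u v huv hrk
    have hed : ¬ (s(u, v) : Sym2 V).IsDiag := by
      rw [Sym2.mk_isDiag_iff]; exact huv
    by_cases heF : s(u, v) ∈ F
    · obtain ⟨X, hX, h⟩ := hcov _ heF hed
      rw [mk_mem_sym2] at h
      exact ⟨X, hX, h.1, h.2⟩
    · have heI : s(u, v) ∉ I := fun h => heF (hIF h)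
      have hn : ¬ Sparse (insert s(u, v) I) := by
        intro hs
        have h1 := card_le_rk (insert_subset_insert _ hIF) hs
        rw [card_insert_of_notMem heI, hrk] at h1
        omega
      obtain ⟨X, hX, heX⟩ := exists_tight_of_not_sparse hI hed hn
      obtain ⟨Y, hY, hsub⟩ := exists_maxTight hX
      rw [mk_mem_sym2] at heX
      exact ⟨Y, hY, hsub heX.1, hsub heX.2⟩

end ModE

/-- Every edge set has a decomposition into rigid components. -/
theorem exists_comps (F : Finset (Sym2 V)) : ∃ 𝒳, Comps F 𝒳 := by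
  obtain ⟨I, hIF, hI, hcard⟩ := ModE.exists_sparse F
  exact ⟨_, ModE.comps_maxTight hIF hI hcard⟩

/-- upper bound from a cover -/
theorem rk_le_cover (F : Finset (Sym2 V)) (𝒳 : Finset (Finset V)) (h2 : ∀ X ∈ 𝒳, 2 ≤ X.card)
    (hc : ∀ e ∈ F, ¬ e.IsDiag → ∃ X ∈ 𝒳, e ∈ X.sym2) : rk F ≤ ∑ X ∈ 𝒳, (2 * X.card - 3) :=
  ModE.rk_le_cover_index F 𝒳 (fun X => X) h2 hc

end Pool.Agent.Helper36.Pin
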