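import Pool.Agent.Helper16.Pin.RankD

/-!
# Module K of `MP_35f203_lc`: the rank of the edges of an end
-/

namespace Pool.Agent.Helper36.Pin

open Finset Module

variable {V : Type} [Fintype V] [DecidableEq V]

namespace ModK

variable {G : SimpleGraph V} {F : Finset V} {a b : V}

theorem a_not_mem (h : EndData G F a b) : a ∉ F := by
  have : a ∈ nbr G F := by rw [h.nbr_eq]; simp
  exact (mem_nbr.1 this).1

theorem b_not_mem (h : EndData G F a b) : b ∉ F := by
  have : b ∈ nbr G F := by rw [h.nbr_eq]; simp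
  exact (mem_nbr.1 this).1

theorem card_union (h : EndData G F a b) : (F ∪ {a, b}).card = F.card + 2 := by
  rw [card_union_of_disjoint, card_pair h.ne]
  rw [disjoint_left]
  intro w hw hw2
  rw [mem_insert, mem_singleton] at hw2
  rcases hw2 with rfl | rfl
  · exact a_not_mem h hw
  · exact b_not_mem h hw

theorem inc_sub (h : EndData G F a b) : inc G F ⊆ (F ∪ {a, b}).sym2 := by
  have := inc_subset_sym2 (G := G) F
  rwa [h.nbr_eq] at this

/-- the edges of `inc G F` which do not touch `X` are inside the complement -/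
theorem sdiff_sub (h : EndData G F a b) (X : Finset V) :
    inc G F \ (inc G F ∩ inc G X) ⊆ ((F ∪ {a, b}) \ X).sym2 := by
  intro e he
  rw [mem_sdiff, mem_inter, not_and] at he
  have h1 := he.2 he.1
  have h2 := inc_sub h he.1
  have h3 := (mem_inc.1 he.1).1
  induction e using Sym2.ind with
  | _ u v =>
    rw [mk_mem_sym2] at h2 ⊢
    rw [mem_inc_mk, not_and, not_or] at h1
    have h4 := h1 (by simpa using h3)
    exact ⟨mem_sdiff.2 ⟨h2.1, h4.1⟩, mem_sdiff.2 ⟨h2.2, h4.2⟩⟩

end ModK

open ModK

theorem EndData.rk_eq {G : SimpleGraph V} {F : Finset V} {a b : V} (h : EndData G F a b) :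
    rk (inc G F) = 2 * F.card + 1 := by
  apply le_antisymm
  · have h1 := rk_inside_le (inc G F) (F ∪ {a, b}) (by rw [ModK.card_union h]; omega)
      (ModK.inc_sub h)
    rw [ModK.card_union h] at h1
    omega
  · exact h.feasA F (Subset.refl _) h.nonempty

theorem EndData.claimK {G : SimpleGraph V} {F : Finset V} {a b : V} (h : EndData G F a b)
    (S₁ : Finset V) (p : V) (hS : S₁ ⊆ F) (hp : p ∈ F) (hpS : p ∉ S₁) :
    2 * (S₁.card + 1) ≤ rk (inc G F ∩ inc G (insert b S₁)) ∧
      (rk (inc G F ∩ inc G (insert b S₁)) = 2 * (S₁.card + 1) →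
        rk (insert s(a, b) (inc G F ∩ inc G (insert b S₁))) ≠
          rk (inc G F ∩ inc G (insert b S₁))) := by
  classical
  have haF := a_not_mem h
  have hbF := b_not_mem h
  have hbS : b ∉ S₁ := fun h' => hbF (hS h')
  set X := insert b S₁ with hX
  set C := inc G F ∩ inc G X with hC
  set D := inc G F \ C with hD
  set Q := (F ∪ {a, b}) \ X with hQ
  have hXc : X.card = S₁.card + 1 := card_insert_of_notMem hbS
  have hXsub : X ⊆ F ∪ {a, b} := by
    intro w hw
    rw [hX, mem_insert] at hw
    rcases hw with rfl | hw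
    · simp
    · exact mem_union_left _ (hS hw)
  have hS1F : S₁.card + 1 ≤ F.card := by
    have h1 : insert p S₁ ⊆ F := insert_subset hp hS
    have h2 := card_le_card h1
    rw [card_insert_of_notMem hpS] at h2
    exact h2
  have hQc : Q.card + S₁.card = F.card + 1 := by
    have h1 := card_sdiff_add_card_eq_card hXsub
    rw [← hQ, hXc, ModK.card_union h] at h1
    omega
  have haQ : a ∈ Q := by
    rw [hQ, mem_sdiff, hX, mem_insert, not_or]
    exact ⟨by simp, h.ne, fun h' => haF (hS h')⟩
  have hDQ : D ⊆ Q.sym2 := sdiff_sub h X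
  have hDr : rk D + 3 ≤ 2 * Q.card := rk_inside_le D Q (by omega) hDQ
  have hCD : C ∪ D = inc G F := by
    rw [hD, union_sdiff_of_subset]
    exact inter_subset_left
  have hF := h.rk_eq
  have hle : rk (inc G F) ≤ rk C + rk D := by
    rw [← hCD]
    exact rk_union_le C D
  refine ⟨by omega, ?_⟩
  intro hrk hins
  obtain ⟨𝒳, h𝒳⟩ := exists_comps C
  obtain ⟨W, hW, haW, hbW⟩ := h𝒳.closure a b h.ne hins
  have hWsum : (2 * W.card - 3) + ∑ X ∈ 𝒳.erase W, (2 * X.card - 3) = rk C := by
    rw [← h𝒳.sum]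
    exact add_sum_erase 𝒳 (fun X : Finset V => 2 * X.card - 3) hW
  have hW2 := h𝒳.two_le W hW
  have hWQ : (W ∩ Q).card ≤ 1 := by
    by_contra hlt
    have h1 : rk (C ∪ D) ≤ (2 * (W ∪ Q).card - 3) + ∑ X ∈ 𝒳.erase W, (2 * X.card - 3) := by
      have h2 := ModF.rk_le_cover_index (C ∪ D) 𝒳 (fun X => if X = W then W ∪ Q else X) (by
        intro e he hed
        rcases mem_union.1 he with he | he
        · obtain ⟨Z, hZ, heZ⟩ := h𝒳.cover e he hed
          refine ⟨Z, hZ, ?_⟩
          by_cases hZW : Z = W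
          · simp only [hZW, if_true]
            rw [hZW] at heZ
            exact Finset.sym2_mono subset_union_left heZ
          · simp only [hZW, if_false]
            exact heZ
        · refine ⟨W, hW, ?_⟩
          simp only [if_true]
          exact Finset.sym2_mono subset_union_right (hDQ he))
      rw [← add_sum_erase _ _ hW] at h2
      simp only [if_true] at h2
      refine le_trans h2 (Nat.add_le_add_left (le_of_eq ?_) _)
      refine sum_congr rfl fun Z hZ => ?_
      rw [mem_erase] at hZ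
      rw [if_neg hZ.1]
    rw [hCD] at h1
    have h3 := card_union_add_card_inter W Q
    omega
  have haWQ : a ∈ W ∩ Q := mem_inter.2 ⟨haW, haQ⟩
  have hWQa : ∀ w ∈ W, w ∈ Q → w = a := by
    intro w hw hwQ
    exact (card_le_one.1 hWQ) w (mem_inter.2 ⟨hw, hwQ⟩) a haWQ
  -- W is contained in `F ∪ {a, b}`
  have hWsub : W ⊆ F ∪ {a, b} := by
    have h1 := h𝒳.rigid W hW
    have h2 : C ∩ W.sym2 ⊆ (W ∩ (F ∪ {a, b})).sym2 := by
      intro e he
      rw [mem_inter] at he
      rw [ModE.sym2_inter', mem_inter]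
      exact ⟨he.2, inc_sub h (mem_inter.1 he.1).1⟩
    have h3 : 2 ≤ (W ∩ (F ∪ {a, b})).card := by
      rw [← card_pair h.ne]
      apply card_le_card
      intro w hw
      rw [mem_insert, mem_singleton] at hw
      rcases hw with rfl | rfl
      · exact mem_inter.2 ⟨haW, by simp⟩
      · exact mem_inter.2 ⟨hbW, by simp⟩
    have h4 := rk_inside_le _ _ h3 h2
    have h5 : W ∩ (F ∪ {a, b}) = W := by
      apply eq_of_subset_of_card_le inter_subset_left
      omega
    exact inter_eq_left.1 h5
  have hWc : W.card = (S₁ ∩ W).card + 2 := by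
    have h1 : W = (S₁ ∩ W) ∪ {a, b} := by
      ext w
      rw [mem_union, mem_inter, mem_insert, mem_singleton]
      constructor
      · intro hw
        by_cases hwX : w ∈ X
        · rw [hX, mem_insert] at hwX
          rcases hwX with rfl | hwX
          · exact Or.inr (Or.inr rfl)
          · exact Or.inl ⟨hwX, hw⟩
        · exact Or.inr (Or.inl (hWQa w hw (mem_sdiff.2 ⟨hWsub hw, hwX⟩)))
      · rintro (⟨-, hw⟩ | rfl | rfl)
        · exact hw
        · exact haW
        · exact hbW
    have h2 : Disjoint (S₁ ∩ W) {a, b} := by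
      rw [disjoint_left]
      intro w hw hw2
      rw [mem_insert, mem_singleton] at hw2
      rcases hw2 with rfl | rfl
      · exact haF (hS (mem_inter.1 hw).1)
      · exact hbS (mem_inter.1 hw).1
    have h3 := card_union_of_disjoint h2
    rw [← h1, card_pair h.ne] at h3
    exact h3
  have hSW : (S₁ \ W).card + (S₁ ∩ W).card = S₁.card := by
    have := card_inter_add_card_sdiff S₁ W
    omega
  -- the edges of `C` which are not inside `W`
  set J := C.filter (fun e => e ∉ W.sym2) with hJ
  have hJr : rk J ≤ 2 * (S₁ \ W).card + 1 := by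
    have h1 : rk J ≤ ∑ X ∈ 𝒳.erase W, (2 * X.card - 3) := by
      apply ModF.rk_le_cover_index J (𝒳.erase W) (fun X => X)
      intro e he hed
      rw [hJ, mem_filter] at he
      obtain ⟨Z, hZ, heZ⟩ := h𝒳.cover e he.1 hed
      refine ⟨Z, mem_erase.2 ⟨?_, hZ⟩, heZ⟩
      rintro rfl
      exact he.2 heZ
    omega
  set Y := F \ S₁ with hY
  have hYc : Y.card + S₁.card = F.card := card_sdiff_add_card_eq_card hS
  have hdisj : Disjoint Y (S₁ \ W) := by
    rw [disjoint_left]
    intro w hw hw2
    exact (mem_sdiff.1 hw).2 (mem_sdiff.1 hw2).1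
  have hsubF : Y ∪ (S₁ \ W) ⊆ F := by
    apply union_subset sdiff_subset
    exact sdiff_subset.trans hS
  have hnotW : ∀ w ∈ Y ∪ (S₁ \ W), w ∉ W := by
    intro w hw hwW
    rcases mem_union.1 hw with hw | hw
    · have hwQ : w ∈ Q := by
        rw [hQ, mem_sdiff, hX, mem_insert, not_or]
        refine ⟨mem_union_left _ (mem_sdiff.1 hw).1, ?_, (mem_sdiff.1 hw).2⟩
        rintro rfl
        exact hbF (mem_sdiff.1 hw).1
      have := hWQa w hwW hwQ
      rw [this] at hw
      exact haF (mem_sdiff.1 hw).1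
    · exact (mem_sdiff.1 hw).2 hwW
  have hinc : inc G (Y ∪ (S₁ \ W)) ⊆ J ∪ D := by
    intro e he
    have heF : e ∈ inc G F := inc_mono hsubF he
    by_cases heC : e ∈ C
    · apply mem_union_left
      rw [hJ, mem_filter]
      refine ⟨heC, ?_⟩
      intro heW
      obtain ⟨-, w, hw, hwe⟩ := mem_inc.1 he
      exact hnotW w hw (mem_sym2_iff.1 heW w hwe)
    · apply mem_union_right
      rw [hD, mem_sdiff]
      exact ⟨heF, heC⟩
  have hfeas := h.feasA (Y ∪ (S₁ \ W)) hsubF ⟨p, mem_union_left _ (mem_sdiff.2 ⟨hp, hpS⟩)⟩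
  have h1 := rk_mono hinc
  have h2 := rk_union_le J D
  rw [card_union_of_disjoint hdisj] at hfeas
  omega

theorem EndData.both {G : SimpleGraph V} {F : Finset V} {a b : V} (h : EndData G F a b)
    (S₁ : Finset V) (p : V) (hS : S₁ ⊆ F) (hp : p ∈ F) (hpS : p ∉ S₁) :
    2 * S₁.card + 3 ≤ rk (inc G F ∩ inc G (insert a (insert b S₁))) := by
  classical
  have haF := a_not_mem h
  have hbF := b_not_mem h
  set X := insert a (insert b S₁) with hX
  set C := inc G F ∩ inc G X with hC
  set D := inc G F \ C with hD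
  have hDQ' : D ⊆ ((F ∪ {a, b}) \ X).sym2 := sdiff_sub h X
  have hQ : (F ∪ {a, b}) \ X = F \ S₁ := by
    ext w
    simp only [hX, mem_sdiff, mem_union, mem_insert, mem_singleton, not_or]
    constructor
    · rintro ⟨h1 | h1 | h1, h2, h3, h4⟩
      · exact ⟨h1, h4⟩
      · exact absurd h1 h2
      · exact absurd h1 h3
    · rintro ⟨h1, h2⟩
      refine ⟨Or.inl h1, ?_, ?_, h2⟩
      · rintro rfl; exact haF h1
      · rintro rfl; exact hbF h1
  rw [hQ] at hDQ'
  have hQc : (F \ S₁).card + S₁.card = F.card := card_sdiff_add_card_eq_card hS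
  have hQpos : 1 ≤ (F \ S₁).card := card_pos.2 ⟨p, mem_sdiff.2 ⟨hp, hpS⟩⟩
  have hCD : C ∪ D = inc G F := by
    rw [hD, union_sdiff_of_subset]
    exact inter_subset_left
  have hF := h.rk_eq
  have hle : rk (inc G F) ≤ rk C + rk D := by
    rw [← hCD]
    exact rk_union_le C D
  by_cases h1 : 2 ≤ (F \ S₁).card
  · have h2 := rk_inside_le D (F \ S₁) h1 hDQ'
    omega
  · have h2 := rk_inside_small D (F \ S₁) (by omega) hDQ'
    omega

end Pool.Agent.Helper36.Pin
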