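import Pool.Agent.Helper16.Pin.CompsE

/-!
# Module F of `MP_35f203_lc`: two edge sets which share two vertices only
-/

namespace Pool.Agent.Helper36.Pin

open Finset Module

variable {V : Type} [Fintype V] [DecidableEq V]

namespace ModF

theorem two_le_of_mem_sym2 {X : Finset V} {e : Sym2 V} (he : ¬ e.IsDiag) (h : e ∈ X.sym2) :
    2 ≤ X.card := by
  induction e using Sym2.ind with
  | _ u v =>
    rw [mk_mem_sym2] at h
    have huv : u ≠ v := by
      intro h'
      exact he (by rw [Sym2.mk_isDiag_iff]; exact h')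
    have h4 : ({u, v} : Finset V) ⊆ X := by
      intro w hw
      rw [mem_insert, mem_singleton] at hw
      rcases hw with rfl | rfl
      · exact h.1
      · exact h.2
    have h5 := card_le_card h4
    rw [card_pair huv] at h5
    exact h5

/-- indexed cover bound, with truncated subtraction -/
theorem rk_le_cover_index {ι : Type*} (F : Finset (Sym2 V)) (s : Finset ι) (f : ι → Finset V)
    (hc : ∀ e ∈ F, ¬ e.IsDiag → ∃ i ∈ s, e ∈ (f i).sym2) :
    rk F ≤ ∑ i ∈ s, (2 * (f i).card - 3) := by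
  classical
  have h1 := ModE.rk_le_cover_index F (s.filter (fun i => 2 ≤ (f i).card)) f
    (fun i hi => (mem_filter.1 hi).2) (by
      intro e he hed
      obtain ⟨i, hi, hei⟩ := hc e he hed
      exact ⟨i, mem_filter.2 ⟨hi, two_le_of_mem_sym2 hed hei⟩, hei⟩)
  exact le_trans h1 (sum_le_sum_of_subset (filter_subset _ _))

theorem rk_mono' {F F' : Finset (Sym2 V)} (h : F ⊆ F') : rk F ≤ rk F' := by
  obtain ⟨I, hIF, hI, hcard⟩ := ModE.exists_sparse F
  rw [← hcard]
  exact ModE.card_le_rk (hIF.trans h) hI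

end ModF

open ModF in
theorem sep (A B : Finset (Sym2 V)) (Y : Finset V) (a b : V) (hab : a ≠ b) (ha : a ∉ Y)
    (hb : b ∉ Y) (hA : A ⊆ (Y ∪ {a, b}).sym2) (hB : B ⊆ (Yᶜ).sym2) :
    rk A + rk B ≤ rk (A ∪ B) ∨
      (rk A + rk B ≤ rk (A ∪ B) + 1 ∧ rk (insert s(a, b) A) = rk A ∧
        rk (insert s(a, b) B) = rk B) := by
  classical
  obtain ⟨𝒳, h𝒳⟩ := exists_comps (A ∪ B)
  have hcA : ∀ e ∈ A, ¬ e.IsDiag → ∃ X ∈ 𝒳, e ∈ (X ∩ (Y ∪ {a, b})).sym2 := by
    intro e he hed
    obtain ⟨X, hX, heX⟩ := h𝒳.cover e (mem_union_left _ he) hed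
    refine ⟨X, hX, ?_⟩
    rw [ModE.sym2_inter', mem_inter]
    exact ⟨heX, hA he⟩
  have hcB : ∀ e ∈ B, ¬ e.IsDiag → ∃ X ∈ 𝒳, e ∈ (X ∩ Yᶜ).sym2 := by
    intro e he hed
    obtain ⟨X, hX, heX⟩ := h𝒳.cover e (mem_union_right _ he) hed
    refine ⟨X, hX, ?_⟩
    rw [ModE.sym2_inter', mem_inter]
    exact ⟨heX, hB he⟩
  have hSA := rk_le_cover_index A 𝒳 _ hcA
  have hSB := rk_le_cover_index B 𝒳 _ hcB
  have hcount : ∀ X : Finset V, (X ∩ (Y ∪ {a, b})).card + (X ∩ Yᶜ).card =
      X.card + (X ∩ {a, b}).card := by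
    intro X
    have h1 := card_union_add_card_inter (X ∩ (Y ∪ {a, b})) (X ∩ Yᶜ)
    have h2 : (X ∩ (Y ∪ {a, b})) ∪ (X ∩ Yᶜ) = X := by
      ext w
      simp only [mem_union, mem_inter, mem_compl]
      tauto
    have h3 : (X ∩ (Y ∪ {a, b})) ∩ (X ∩ Yᶜ) = X ∩ {a, b} := by
      ext w
      simp only [mem_union, mem_inter, mem_compl, mem_insert, mem_singleton]
      constructor
      · rintro ⟨⟨h1, h2 | h2⟩, h3, h4⟩
        · exact absurd h2 h4
        · exact ⟨h1, h2⟩
      · rintro ⟨h1, h2⟩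
        refine ⟨⟨h1, Or.inr h2⟩, h1, ?_⟩
        rcases h2 with rfl | rfl
        · exact ha
        · exact hb
    rw [h2, h3] at h1
    exact h1.symm
  have hle1 : ∀ X : Finset V, (X ∩ (Y ∪ {a, b})).card ≤ X.card :=
    fun X => card_le_card inter_subset_left
  have hle2 : ∀ X : Finset V, (X ∩ Yᶜ).card ≤ X.card := fun X => card_le_card inter_subset_left
  -- a set which does not contain both `a` and `b`
  have hgood : ∀ X : Finset V, ¬ (a ∈ X ∧ b ∈ X) →
      (2 * (X ∩ (Y ∪ {a, b})).card - 3) + (2 * (X ∩ Yᶜ).card - 3) ≤ 2 * X.card - 3 := by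
    intro X hX
    have h1 : (X ∩ {a, b}).card ≤ 1 := by
      rw [card_le_one]
      intro u hu v hv
      simp only [mem_inter, mem_insert, mem_singleton] at hu hv
      obtain ⟨hu1, rfl | rfl⟩ := hu <;> obtain ⟨hv1, rfl | rfl⟩ := hv
      · rfl
      · exact absurd ⟨hu1, hv1⟩ hX
      · exact absurd ⟨hv1, hu1⟩ hX
      · rfl
    have h2 := hcount X
    have h3 := hle1 X
    have h4 := hle2 X
    omega
  by_cases hex : ∃ X ∈ 𝒳, a ∈ X ∧ b ∈ X
  · obtain ⟨X₀, hX₀, haX, hbX⟩ := hex
    have hab2 : (X₀ ∩ {a, b}).card = 2 := by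
      have : X₀ ∩ {a, b} = {a, b} := by
        apply inter_eq_right.2
        intro w hw
        rw [mem_insert, mem_singleton] at hw
        rcases hw with rfl | rfl
        · exact haX
        · exact hbX
      rw [this, card_pair hab]
    have h0 : (2 * (X₀ ∩ (Y ∪ {a, b})).card - 3) + (2 * (X₀ ∩ Yᶜ).card - 3) =
        (2 * X₀.card - 3) + 1 := by
      have h1 := hcount X₀
      have h2 := hle1 X₀
      have h3 := hle2 X₀
      omega
    have hothers : ∀ X ∈ 𝒳.erase X₀,
        (2 * (X ∩ (Y ∪ {a, b})).card - 3) + (2 * (X ∩ Yᶜ).card - 3) ≤ 2 * X.card - 3 := by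
      intro X hX
      rw [mem_erase] at hX
      apply hgood
      rintro ⟨h1, h2⟩
      have h3 := h𝒳.inter X hX.2 X₀ hX₀ hX.1
      have h4 : ({a, b} : Finset V) ⊆ X ∩ X₀ := by
        intro w hw
        rw [mem_insert, mem_singleton] at hw
        rcases hw with rfl | rfl
        · exact mem_inter.2 ⟨h1, haX⟩
        · exact mem_inter.2 ⟨h2, hbX⟩
      have h5 := card_le_card h4
      rw [card_pair hab] at h5
      omega
    have hsum : ∑ X ∈ 𝒳, (2 * (X ∩ (Y ∪ {a, b})).card - 3) + ∑ X ∈ 𝒳, (2 * (X ∩ Yᶜ).card - 3) ≤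
        rk (A ∪ B) + 1 := by
      rw [← h𝒳.sum, ← sum_add_distrib, ← add_sum_erase _ _ hX₀,
        ← add_sum_erase 𝒳 (fun X : Finset V => 2 * X.card - 3) hX₀]
      have := sum_le_sum hothers
      omega
    by_cases hle : rk A + rk B ≤ rk (A ∪ B)
    · exact Or.inl hle
    · right
      refine ⟨by omega, ?_, ?_⟩
      · apply le_antisymm
        · have h1 : rk (insert s(a, b) A) ≤ ∑ X ∈ 𝒳, (2 * (X ∩ (Y ∪ {a, b})).card - 3) := by
            apply rk_le_cover_index
            intro e he hed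
            rw [mem_insert] at he
            rcases he with rfl | he
            · refine ⟨X₀, hX₀, ?_⟩
              rw [mk_mem_sym2]
              simp [haX, hbX]
            · exact hcA e he hed
          omega
        · exact rk_mono' (subset_insert _ _)
      · apply le_antisymm
        · have h1 : rk (insert s(a, b) B) ≤ ∑ X ∈ 𝒳, (2 * (X ∩ Yᶜ).card - 3) := by
            apply rk_le_cover_index
            intro e he hed
            rw [mem_insert] at he
            rcases he with rfl | he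
            · refine ⟨X₀, hX₀, ?_⟩
              rw [mk_mem_sym2]
              simp [haX, hbX, ha, hb]
            · exact hcB e he hed
          omega
        · exact rk_mono' (subset_insert _ _)
  · left
    push Not at hex
    have hsum : ∑ X ∈ 𝒳, (2 * (X ∩ (Y ∪ {a, b})).card - 3) + ∑ X ∈ 𝒳, (2 * (X ∩ Yᶜ).card - 3) ≤
        rk (A ∪ B) := by
      rw [← h𝒳.sum, ← sum_add_distrib]
      refine sum_le_sum fun X hX => ?_
      apply hgood
      rintro ⟨h1, h2⟩
      exact hex X hX h1 h2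
    omega

end Pool.Agent.Helper36.Pin
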